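import Pool.Agent.U142.BDH4

set_option autoImplicit false

/-!
# A Barban–Davenport–Halberstam theorem for the sets invariant under the Collatz map

The sets `S` of integers which are invariant under the Collatz map and its inverse (the basins of
the cycles, merging classes, the set of all integers with a divergent orbit, unions of these) have
a natural density `δ` among the integers of each sign. The level of distribution known for them is
a small power `N ^ θ`: for all moduli up to `N ^ θ` all residue classes contain the expected number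
of elements of `S`. Here we go up to `κ N`, where a class has a bounded number of elements: for
`Q ≤ κ N` almost all of the pairs of a modulus `q ≤ Q` and a residue class `a (mod q)` are such that
`S` has `δ M / q + O(ε N / q)` elements `≤ M` in the class, for ALL `M ≤ N` and for ALL invariant
sets `S` at the same time; this is also true in mean square. The same holds for all bounded
functions which have equal values at integers whose trajectories meet at the same time.

Proof: the variance over the classes modulo `q` is the sum of `|F̂(b / q)|²` over `0 < b < q`. The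
fractions with small denominators are treated by the Fourier uniformity of these functions
(starting file `Results/MP_d02c56_nt/FourierUniformity.lean`, theorem `fourier` of `W41/FU7`), those
with large denominators by the large sieve and partial summation. The supremum over `M` follows
from the values at the points of a grid, and finitely many merging classes control all invariant
sets.
-/

namespace Pool.Agent.Results.MP_d02c56_nt.BarbanDavenportHalberstam

open Filter Topology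

/-- The Collatz map on the integers. -/
def C (x : ℤ) : ℤ := if x % 2 = 0 then x / 2 else 3 * x + 1

/-- The shortcut map. -/
def T (x : ℤ) : ℤ := if x % 2 = 0 then x / 2 else (3 * x + 1) / 2

/-- `S` is invariant under the Collatz map and its inverse. -/
def Invariant (S : Set ℤ) : Prop := ∀ x : ℤ, x ∈ S ↔ C x ∈ S

/-- Among the integers of sign `s` the set `S` has natural density `δ`. -/
def HasDensity (s : ℤ) (S : Set ℤ) (δ : ℝ) : Prop :=
  Tendsto (fun N : ℕ => ({n : ℤ | 0 < s * n ∧ s * n ≤ N ∧ n ∈ S}.ncard : ℝ) / N) atTop (𝓝 δ)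

/-- A bounded function on the integers that has the same value at any two integers whose
trajectories under the shortcut map are at some time at the same point. -/
def Synchronous (F : ℤ → ℝ) : Prop :=
  (∀ x, |F x| ≤ 1) ∧ ∀ (j : ℕ) (x y : ℤ), T^[j] x = T^[j] y → F x = F y

/-- The sum of `F (s n)` over the `n ≤ M` with `n ≡ a (mod q)`, minus `1 / q` times the sum over all
`n ≤ M`. -/
noncomputable def Dev (s : ℤ) (F : ℤ → ℝ) (M q a : ℕ) : ℝ :=
  ∑ n ∈ (Finset.Icc 1 M).filter (fun n => n % q = a), F (s * (n : ℤ)) -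
    (∑ n ∈ Finset.Icc 1 M, F (s * (n : ℤ))) / q

/-- The number of the `n ≤ M` with `n ≡ a (mod q)` and `s n ∈ S`. -/
noncomputable def Count (s : ℤ) (S : Set ℤ) (M q a : ℕ) : ℕ :=
  {n : ℕ | 1 ≤ n ∧ n ≤ M ∧ n % q = a ∧ s * (n : ℤ) ∈ S}.ncard

/-- The union of the five known cycles. -/
def Known : Finset ℤ := {1, 4, 2, -1, -2, -5, -14, -7, -20, -10, -17, -50, -25, -74, -37, -110,
  -55, -164, -82, -41, -122, -61, -182, -91, -272, -136, -68, -34, 0}

/-- The trajectory of `x` reaches one of the five known cycles. -/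
def Reaches (x : ℤ) : Prop := ∃ k : ℕ, C^[k] x ∈ Known

theorem known_closed : ∀ x ∈ Known, C x ∈ Known := by decide

theorem reaches_inv : Invariant {x | Reaches x} := by
  intro x
  constructor
  · rintro ⟨k, hk⟩
    cases k with
    | zero => exact ⟨0, known_closed x hk⟩
    | succ k => exact ⟨k, by rw [Function.iterate_succ_apply] at hk; exact hk⟩
  · rintro ⟨k, hk⟩
    exact ⟨k + 1, by rw [Function.iterate_succ_apply]; exact hk⟩

open Pool.Agent.W41 Pool.Agent.H499R2.ND Pool.Agent.H499R2.CO Pool.Agent.W41.FU Pool.Agent.U142.BDH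

theorem inv_of {S : Set ℤ} (hS : Invariant S) : Inv 1 S := by
  intro x
  have e : Td 1 x = C x ∨ Td 1 x = C (C x) := by
    unfold Td C
    by_cases h : x % 2 = 0
    · left; simp [h]
    · right
      have h2 : (3 * x + 1) % 2 = 0 := by omega
      simp [h, h2]
  rcases e with h | h
  · rw [h]; exact hS x
  · rw [h]; exact (hS x).trans (hS (C x))

theorem HD_iff {s : ℤ} (hs : s = 1 ∨ s = -1) {S : Set ℤ} (hS : Invariant S) :
    ∃ δ : ℝ, HD s S δ ∧ HasDensity s S δ := by
  obtain ⟨δ, -, -, h⟩ := dens_side (d := 1) odd_one (by norm_num) hs (inv_of hS)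
  exact ⟨δ, h, HD_ncard hs h⟩

theorem HD_of {s : ℤ} (hs : s = 1 ∨ s = -1) {S : Set ℤ} (hS : Invariant S) {δ : ℝ} (h : HasDensity s S δ) :
    HD s S δ := by
  obtain ⟨δ', h1, h2⟩ := HD_iff hs hS
  rw [tendsto_nhds_unique h h2]
  exact h1

theorem T_sign {s : ℤ} (hs : s = 1 ∨ s = -1) (x : ℤ) : T (s * x) = s * Tz s x := by
  unfold T Tz
  rcases hs with rfl | rfl
  · simp only [one_mul]
  · have h1 : (-1 * x) % 2 = 0 ↔ x % 2 = 0 := by omega
    by_cases h : x % 2 = 0
    · rw [if_pos (h1.2 h), if_pos h]; omega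
    · rw [if_neg (fun h2 => h (h1.1 h2)), if_neg h]; omega

theorem T_sign_iter {s : ℤ} (hs : s = 1 ∨ s = -1) (j : ℕ) : ∀ x : ℤ, T^[j] (s * x) = s * (Tz s)^[j] x := by
  induction j with
  | zero => intro x; rfl
  | succ j ih =>
    intro x
    rw [Function.iterate_succ_apply, Function.iterate_succ_apply, T_sign hs, ih]

theorem synchronous_same {s : ℤ} (hs : s = 1 ∨ s = -1) {F : ℤ → ℝ} (hF : Synchronous F) :
    (fun x => F (s * x)) ∈ SameT s := by
  refine ⟨fun x => hF.1 _, fun j x y h => hF.2 j _ _ ?_⟩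
  rw [T_sign_iter hs, T_sign_iter hs, h]

theorem dev_eq (s : ℤ) (F : ℤ → ℝ) (M q a : ℕ) : Dev s F M q a = Dr (fun x => F (s * x)) M q a := rfl

theorem count_eq (s : ℤ) (S : Set ℤ) (M q a : ℕ) : Count s S M q a = cnt s S M q a := rfl

/-- In the following `s = 1` (positive integers) or `s = -1` (negative integers), `N` is large in
terms of `ε` only, and `Q ≤ κ N`, where `κ > 0` depends only on `ε`.
(1) For every synchronous function `F` and all choices of the cutoffs `m (q, a) ≤ N` the sum over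
`q ≤ Q` of `q` times the sum over the residue classes `a (mod q)` of `Dev² ` is at most `ε Q N²`
(the trivial bound is a constant times `Q N²`).
(2) For all but `ε Q²` of the pairs `(q, a)`, `a < q ≤ Q`, the deviation of `F` in the class
`a (mod q)` is at most `ε N / q` for all cutoffs `M ≤ N`.
(3) The number of the elements up to `m (q, a)` of the invariant set `S (q, a)` in the class
`a (mod q)` is `δ m / q` with the error `ε Q N²` in mean square as in (1); the cutoff and the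
invariant set may be chosen for each class separately.
(4) For all but `ε Q²` of the pairs `(q, a)`, `a < q ≤ Q`, ALL invariant sets `S` have
`δ(S) M / q + O(ε N / q)` elements up to `M` in the class `a (mod q)`, for ALL `M ≤ N`.
(5) Every invariant set has a density, which is positive if the set is not empty (known from the
starting library).
(6) If the invariant set `S` contains an integer of sign `s`, then for every `ε > 0` there is `C`
such that for large `Q` all but `ε Q²` of the classes `a (mod q)`, `a < q ≤ Q`, contain an element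
of `S` of sign `s` with absolute value at most `C Q`.
(7) Reduction: if `ψ(N) → 0`, `c > 0` and for infinitely many `N` there is `1 ≤ Q ≤ ψ(N) N` such that
in at least `c Q²` of the classes `a (mod q)`, `a < q ≤ Q`, at most `ψ(N) N / q` of the integers up to
`N` are not in the invariant set `S`, then `S` contains all integers of sign `s`. In particular, if
this is true for the set of the integers which reach the five known cycles, for both signs, then all
integers reach the known cycles. -/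
theorem result :
    (∀ s : ℤ, (s = 1 ∨ s = -1) →
      (∀ ε : ℝ, 0 < ε → ∃ κ : ℝ, 0 < κ ∧ ∃ N₀ : ℕ, ∀ N : ℕ, N₀ ≤ N → ∀ Q : ℕ, (Q : ℝ) ≤ κ * N →
        (∀ F : ℤ → ℝ, Synchronous F → ∀ m : ℕ → ℕ → ℕ, (∀ q a, m q a ≤ N) →
          ∑ q ∈ Finset.Icc 1 Q, (q : ℝ) * ∑ a ∈ Finset.range q, Dev s F (m q a) q a ^ 2 ≤ ε * Q * N ^ 2) ∧
        (∀ F : ℤ → ℝ, Synchronous F →
          ({p : ℕ × ℕ | 1 ≤ p.1 ∧ p.1 ≤ Q ∧ p.2 < p.1 ∧ ∃ M : ℕ, M ≤ N ∧
            ε * N / p.1 < |Dev s F M p.1 p.2|}.ncard : ℝ) ≤ ε * Q ^ 2) ∧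
        (∀ S : ℕ → ℕ → Set ℤ, (∀ q a, Invariant (S q a)) →
          ∀ δ : ℕ → ℕ → ℝ, (∀ q a, HasDensity s (S q a) (δ q a)) → ∀ m : ℕ → ℕ → ℕ, (∀ q a, m q a ≤ N) →
          ∑ q ∈ Finset.Icc 1 Q, (q : ℝ) * ∑ a ∈ Finset.range q,
            ((Count s (S q a) (m q a) q a : ℝ) - δ q a * (m q a) / q) ^ 2 ≤ ε * Q * N ^ 2) ∧
        ({p : ℕ × ℕ | 1 ≤ p.1 ∧ p.1 ≤ Q ∧ p.2 < p.1 ∧ ∃ (S : Set ℤ) (δ : ℝ) (M : ℕ),
          Invariant S ∧ HasDensity s S δ ∧ M ≤ N ∧
            ε * N / p.1 < |(Count s S M p.1 p.2 : ℝ) - δ * M / p.1|}.ncard : ℝ) ≤ ε * Q ^ 2) ∧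
      (∀ S : Set ℤ, Invariant S → ∃ δ : ℝ, HasDensity s S δ ∧ ((∃ x ∈ S, 0 < s * x) → 0 < δ)) ∧
      (∀ S : Set ℤ, Invariant S → (∃ x ∈ S, 0 < s * x) → ∀ ε : ℝ, 0 < ε → ∃ C Q₀ : ℕ, ∀ Q : ℕ, Q₀ ≤ Q →
        ({p : ℕ × ℕ | 1 ≤ p.1 ∧ p.1 ≤ Q ∧ p.2 < p.1 ∧ ∀ n : ℕ, 1 ≤ n → n ≤ C * Q → n % p.1 = p.2 →
          s * (n : ℤ) ∉ S}.ncard : ℝ) ≤ ε * Q ^ 2) ∧
      (∀ S : Set ℤ, Invariant S → ∀ c : ℝ, 0 < c → ∀ ψ : ℕ → ℝ, Tendsto ψ atTop (𝓝 0) →
        (∃ᶠ N : ℕ in atTop, ∃ Q : ℕ, 1 ≤ Q ∧ (Q : ℝ) ≤ ψ N * N ∧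
          c * Q ^ 2 ≤ ({p : ℕ × ℕ | 1 ≤ p.1 ∧ p.1 ≤ Q ∧ p.2 < p.1 ∧
            (Count s Sᶜ N p.1 p.2 : ℝ) ≤ ψ N * N / p.1}.ncard : ℝ)) →
        ∀ x : ℤ, 0 < s * x → x ∈ S)) ∧
    (∀ c : ℝ, 0 < c → ∀ ψ : ℕ → ℝ, Tendsto ψ atTop (𝓝 0) →
      (∀ s : ℤ, (s = 1 ∨ s = -1) → ∃ᶠ N : ℕ in atTop, ∃ Q : ℕ, 1 ≤ Q ∧ (Q : ℝ) ≤ ψ N * N ∧
        c * Q ^ 2 ≤ ({p : ℕ × ℕ | 1 ≤ p.1 ∧ p.1 ≤ Q ∧ p.2 < p.1 ∧
          (Count s {x | ¬ Reaches x} N p.1 p.2 : ℝ) ≤ ψ N * N / p.1}.ncard : ℝ)) →
      ∀ x : ℤ, Reaches x) := by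
  have red : ∀ s : ℤ, (s = 1 ∨ s = -1) → ∀ S : Set ℤ, Invariant S → ∀ c : ℝ, 0 < c → ∀ ψ : ℕ → ℝ,
      Tendsto ψ atTop (𝓝 0) →
        (∃ᶠ N : ℕ in atTop, ∃ Q : ℕ, 1 ≤ Q ∧ (Q : ℝ) ≤ ψ N * N ∧
          c * Q ^ 2 ≤ ({p : ℕ × ℕ | 1 ≤ p.1 ∧ p.1 ≤ Q ∧ p.2 < p.1 ∧
            (Count s Sᶜ N p.1 p.2 : ℝ) ≤ ψ N * N / p.1}.ncard : ℝ)) →
        ∀ x : ℤ, 0 < s * x → x ∈ S := by
    intro s hs S hS c hc ψ hψ h
    simp only [count_eq] at h
    exact reduce hs (inv_of hS) hc hψ h
  refine ⟨fun s hs => ⟨?_, ?_, ?_, ?_⟩, ?_⟩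
  · intro ε hε
    obtain ⟨κ1, hκ1, N1, -, H1⟩ := bdh hs hε
    obtain ⟨κ2, hκ2, N2, -, H2⟩ := pairs_same hs hε
    obtain ⟨κ3, hκ3, N3, -, H3⟩ := bdh_all hs hε
    obtain ⟨κ4, hκ4, N4, -, H4⟩ := pairs_all hs hε
    refine ⟨min (min κ1 κ2) (min κ3 κ4), lt_min (lt_min hκ1 hκ2) (lt_min hκ3 hκ4), N1 + N2 + N3 + N4,
      fun N hN Q hQ => ?_⟩
    have hN0 : (0 : ℝ) ≤ N := Nat.cast_nonneg _
    have hq : ∀ κ : ℝ, min (min κ1 κ2) (min κ3 κ4) ≤ κ → (Q : ℝ) ≤ κ * N := fun κ h =>
      hQ.trans (mul_le_mul_of_nonneg_right h hN0)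
    refine ⟨?_, ?_, ?_, ?_⟩
    · intro F hF m hm
      simp only [dev_eq]
      exact H1 N (by omega) Q (hq κ1 ((min_le_left _ _).trans (min_le_left _ _))) _ (synchronous_same hs hF) m hm
    · intro F hF
      simp only [dev_eq]
      exact H2 N (by omega) Q (hq κ2 ((min_le_left _ _).trans (min_le_right _ _))) _ (synchronous_same hs hF)
    · intro S hS δ hδ m hm
      simp only [count_eq]
      exact H3 N (by omega) Q (hq κ3 ((min_le_right _ _).trans (min_le_left _ _))) S (fun q a => inv_of (hS q a)) δ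
        (fun q a => HD_of hs (hS q a) (hδ q a)) m hm
    · have h4 := H4 N (by omega) Q (hq κ4 ((min_le_right _ _).trans (min_le_right _ _)))
      refine le_trans (Nat.cast_le.2 ?_) h4
      apply Set.ncard_le_ncard _ (bad_finite Q _)
      rintro ⟨q, a⟩ ⟨g1, g2, g3, S, δ, M, g4, g5, g6, g7⟩
      rw [count_eq] at g7
      exact ⟨g1, g2, g3, S, δ, M, inv_of g4, HD_of hs g4 g5, g6, g7⟩
  · intro S hS
    obtain ⟨δ, h1, h2⟩ := HD_iff hs hS
    refine ⟨δ, h2, ?_⟩
    rintro ⟨x, hx, hx0⟩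
    exact one_pos hs (inv_of hS) hx hx0 h1
  · rintro S hS ⟨x, hx, hx0⟩ ε hε
    exact least hs (inv_of hS) hx hx0 hε
  · exact red s hs
  · intro c hc ψ hψ h x
    have key : ∀ s : ℤ, (s = 1 ∨ s = -1) → ∀ x : ℤ, 0 < s * x → Reaches x := by
      intro s hs x hx
      exact red s hs {x | Reaches x} reaches_inv c hc ψ hψ (h s hs) x hx
    rcases lt_trichotomy x 0 with hx | hx | hx
    · exact key (-1) (Or.inr rfl) x (by omega)
    · rw [hx]; exact ⟨0, by decide⟩
    · exact key 1 (Or.inl rfl) x (by omega)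

end Pool.Agent.Results.MP_d02c56_nt.BarbanDavenportHalberstam
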