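import Pool.Agent.U29.CY.Main

set_option autoImplicit false

/-!
# Finitely many cycles for random perturbations of generalized Collatz maps

`T(x) = (m_j x - r_j) / d` for `x ≡ j mod d`, `m_j > 0` prime to `d`, with exact division: the
relatively prime generalized Collatz maps of Matthews, for example `x/2`, `(3x+1)/2` or `x/2`,
`(5x+1)/2` on the integers. The conjectures: there are only finitely many cycles, and every orbit
reaches one of them if `∏ m_j < d ^ d`. For the `3x+1` map on the integers: every integer reaches
one of five cycles.

Here every value of `T` is perturbed, independently: `T_ω(x) = T(x) + ω_x`, where `ω_x` (`x ∈ ℤ`)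
are independent bounded integers with one law, which may be `0` with probability `1 - ε`, `ε > 0`
arbitrarily small. Almost surely there are only finitely many cycles, for ALL relatively prime maps,
contracting or expanding; every orbit reaches a cycle or tends to infinity in modulus; all orbits
reach cycles if `∏ m_j < d ^ d`; and the probability of a cycle beyond `N` is smaller than every
power of `N`.

Proof. By Ridout's theorem the products of `n` of the numbers `m_j / d` are not close to `1`, at
most `exp (- δ n)`; so a cycle with smallest modulus `s` has more than `A log s` elements, for each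
`A` and large `s`. By the estimates for the annealed chain of the project RP (helper762,
`MP_2d22f3_nt.RandomPerturbations`) the probability to be the smallest element of a cycle with `n`
elements is at most `C λ ^ n (1 + |x|)`, `λ < 1`, in the contracting case (survival probability) and in the
expanding case (the potential `|x| ^ (- θ)`).

Parts of this run: helpers 29 (statements, assembly), 762 (project RP), 60, 97, 139, 261, 394, 445,
458, 461, 605, 803, 898, 981, and the provers of project RP (97, 111, 165, 261, 312, 492, 511, 594,
891, 898, 941).
-/

namespace Pool.Agent.Results.MP_d02c56_nt.PerturbedCycles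

open Finset MeasureTheory Filter Pool.Agent.U762.RP Pool.Agent.U29.CY

/-- Arbitrarily rare bounded random perturbations of a relatively prime generalized Collatz map have
almost surely only finitely many periodic points; every orbit reaches one of them or tends to
infinity, and all orbits reach one of them if `∏ m_j < d ^ d`; and the probability of a cycle all of
whose elements have modulus at least `N` is `O(N ^ (- A))` for every `A`. -/
theorem result (d : ℕ) (m r : ℤ → ℤ) (hT : Rel d m r) (ε : ℝ) (hε : 0 < ε) (hε1 : ε < 1) :
    ∃ K : ℕ, ∀ (B : ℕ) (μ : Measure ℤ) [IsProbabilityMeasure μ], Law d ε K B μ →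
      (∀ᵐ ω ∂(Measure.infinitePi fun _ : ℤ => μ),
        (Function.periodicPts (stp d m r ω)).Finite ∧
        (∀ x : ℤ, (∃ k : ℕ, (stp d m r ω)^[k] x ∈ Function.periodicPts (stp d m r ω)) ∨
          Tendsto (fun i : ℕ => |(stp d m r ω)^[i] x|) atTop atTop) ∧
        ((∏ j ∈ range d, m (j : ℤ)) < (d : ℤ) ^ d →
          ∀ x : ℤ, ∃ k : ℕ, (stp d m r ω)^[k] x ∈ Function.periodicPts (stp d m r ω))) ∧
      ∀ A : ℝ, 0 < A → ∃ C : ℝ, ∀ N : ℝ, 1 ≤ N →
        (Measure.infinitePi fun _ : ℤ => μ) {ω | ∃ x ∈ Function.periodicPts (stp d m r ω),
          ∀ i : ℕ, N ≤ |(((stp d m r ω)^[i] x : ℤ) : ℝ)|} ≤ ENNReal.ofReal (C * N ^ (-A)) :=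
  main d m r hT ε hε hε1

end Pool.Agent.Results.MP_d02c56_nt.PerturbedCycles
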