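import Mathlib
import Pool.Agent.U339.CE.CollZ
import Pool.Agent.U339.CE.Sel

set_option autoImplicit false

/-!
# Selection of digits along the sets of integers invariant under the Collatz map

Let `S` be a set of integers which is invariant under the Collatz map `C` and its inverse (for example the
set of the integers whose trajectory reaches a given cycle, or one of the five known cycles), let `s = ±1`
and suppose that `S` contains an integer of sign `s`. Let `n₀ < n₁ < ⋯` be the positive integers `n` with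
`s n ∈ S`.

1. If a sequence `a` over a finite alphabet is generic for an ergodic shift invariant probability measure
   `μ` (every word occurs in `a` with the frequency given by `μ`), then the selected sequence
   `a (n₀), a (n₁), a (n₂), …` is generic for `μ` too. There is also a counting form, uniform in `S`.
2. In particular, selection by `S` preserves normality to every base. This applies unconditionally to the
   integers whose trajectories reach `1`, `-1`, `-5` or `-17`.
3. Criterion: let `c` be a letter which has positive frequency in the generic sequence `a`. Then all the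
   integers of sign `s` are in `S` if and only if for every `ε > 0` there are arbitrarily large `N` such
   that at most `ε N` of the `n ≤ N` with `a n = c` have `s n ∉ S`. So Question 1 is equivalent to its
   restriction to almost all of the integers `±n` for which the `n`-th digit of a normal number is `c`.

Method. `n` and `n + j` have coalescing trajectories for almost all `n` (starting library,
`Pool.Agent.H499R2.CO`), uniformly for all invariant sets, so that all but `o(N)` of the windows of a given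
length are contained in `S` or disjoint from `S`; the window means of a word along `a` are close to its
frequency for most windows, by the ergodic theorem and genericity; the density of `S` is positive on the
side `s` by `Pool.Agent.H499R2.ND`.
-/

universe u

namespace Pool.Agent.Results.MP_d02c56_nt.SelectedDigits

open MeasureTheory Filter Topology

/-- The Collatz map on the integers. -/
def C (x : ℤ) : ℤ := if x % 2 = 0 then x / 2 else 3 * x + 1

/-- `S` is invariant under the Collatz map and its inverse. -/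
def Invariant (S : Set ℤ) : Prop := ∀ x : ℤ, x ∈ S ↔ C x ∈ S

/-- The union of the five known cycles. -/
def Known : Finset ℤ := {1, 4, 2, -1, -2, -5, -14, -7, -20, -10, -17, -50, -25, -74, -37, -110,
  -55, -164, -82, -41, -122, -61, -182, -91, -272, -136, -68, -34, 0}

/-- The trajectory of `x` reaches one of the five known cycles. -/
def Reaches (x : ℤ) : Prop := ∃ k : ℕ, C^[k] x ∈ Known

/-- The integers whose trajectories contain `y`. -/
def Basin (y : ℤ) : Set ℤ := {x : ℤ | ∃ k : ℕ, C^[k] x = y}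

/-- `idx s S i` is the `i`-th positive integer `n` with `s n ∈ S`, in increasing order, `i = 0, 1, …`. -/
noncomputable def idx (s : ℤ) (S : Set ℤ) (i : ℕ) : ℕ := Nat.nth (fun n => 1 ≤ n ∧ s * (n : ℤ) ∈ S) i

variable {A : Type u}

/-- The shift. -/
def shift (x : ℕ → A) : ℕ → A := fun n => x (n + 1)

/-- The sequences which start with the word `w`. -/
def cyl {k : ℕ} (w : Fin k → A) : Set (ℕ → A) := {x | ∀ i : Fin k, x i = w i}

/-- The number of the `n < N` at which the word `w` occurs in the sequence `a`. -/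
noncomputable def occ (a : ℕ → A) {k : ℕ} (w : Fin k → A) (N : ℕ) : ℕ :=
  {n : ℕ | n < N ∧ ∀ i : Fin k, a (n + i) = w i}.ncard

/-- Every word occurs in `a` with the frequency given by `μ`. -/
def Generic [MeasurableSpace A] (μ : Measure (ℕ → A)) (a : ℕ → A) : Prop :=
  ∀ (k : ℕ) (w : Fin k → A), Tendsto (fun N : ℕ => (occ a w N : ℝ) / N) atTop (𝓝 (μ.real (cyl w)))

/-- The sequence `a` of digits is normal to base `b`. -/
def Normal {b : ℕ} (a : ℕ → Fin b) : Prop :=
  ∀ (k : ℕ) (w : Fin k → Fin b), Tendsto (fun N : ℕ => (occ a w N : ℝ) / N) atTop (𝓝 (((b : ℝ) ^ k)⁻¹))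

theorem known_closed : ∀ x ∈ Known, C x ∈ Known := by decide

theorem reaches_inv : Invariant {x | Reaches x} := by
  intro x
  constructor
  · rintro ⟨k, hk⟩
    cases k with
    | zero => exact ⟨0, known_closed x hk⟩
    | succ k => exact ⟨k, by rw [Function.iterate_succ_apply] at hk; exact hk⟩
  · rintro ⟨k, hk⟩
    exact ⟨k + 1, by rw [Function.iterate_succ_apply]; exact hk⟩

theorem basin_inv {y : ℤ} {p : ℕ} (hp : C^[p + 1] y = y) : Invariant (Basin y) := by
  intro x
  constructor
  · rintro ⟨k, hk⟩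
    cases k with
    | zero =>
      have h1 : x = y := hk
      subst h1
      exact ⟨p, by rw [← Function.iterate_succ_apply]; exact hp⟩
    | succ k => exact ⟨k, by rw [Function.iterate_succ_apply] at hk; exact hk⟩
  · rintro ⟨k, hk⟩
    exact ⟨k + 1, by rw [Function.iterate_succ_apply]; exact hk⟩

/-- the uniform measure on `Fin b` -/
noncomputable def unif (b : ℕ) [NeZero b] : Measure (Fin b) := (PMF.uniformOfFintype (Fin b)).toMeasure

instance (b : ℕ) [NeZero b] : IsProbabilityMeasure (unif b) := PMF.toMeasure.isProbabilityMeasure _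

theorem bern_cyl (b : ℕ) [NeZero b] {k : ℕ} (w : Fin k → Fin b) :
    (Measure.infinitePi fun _ : ℕ => unif b).real (cyl w) = ((b : ℝ) ^ k)⁻¹ := by
  classical
  have h1 : cyl w = Set.pi (Finset.range k : Set ℕ)
      (fun n => if h : n < k then {w ⟨n, h⟩} else Set.univ) := by
    ext x
    simp only [cyl, Set.mem_ofPred_eq, Set.mem_pi, Finset.coe_range, Set.mem_Iio]
    constructor
    · intro h n hn
      rw [dif_pos hn]
      exact h ⟨n, hn⟩
    · intro h i
      have := h i i.2
      rw [dif_pos i.2] at this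
      exact this
  have h3 : ∀ c : Fin b, unif b {c} = (b : ENNReal)⁻¹ := by
    intro c
    unfold unif
    rw [PMF.toMeasure_apply_singleton _ _ (measurableSet_singleton _), PMF.uniformOfFintype_apply,
      Fintype.card_fin]
  unfold Measure.real
  rw [h1, Measure.infinitePi_pi]
  · have h2 : ∀ n ∈ Finset.range k, unif b (if h : n < k then {w ⟨n, h⟩} else Set.univ) =
        (b : ENNReal)⁻¹ := by
      intro n hn
      rw [dif_pos (Finset.mem_range.1 hn), h3]
    rw [Finset.prod_congr rfl h2, Finset.prod_const, Finset.card_range, ENNReal.toReal_pow,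
      ENNReal.toReal_inv, ENNReal.toReal_natCast, inv_pow]
  · intro n hn
    rw [dif_pos (Finset.mem_range.1 hn)]
    exact measurableSet_singleton _

theorem normal_iff {b : ℕ} [NeZero b] (a : ℕ → Fin b) :
    Normal a ↔ Generic (Measure.infinitePi fun _ : ℕ => unif b) a := by
  unfold Normal Generic
  simp only [bern_cyl]

open Pool.Agent.U339.CE in
open Classical in
theorem crit_aux {s : ℤ} (hs : s = 1 ∨ s = -1) {S : Set ℤ} (hS : Invariant S) {v : ℕ → ℝ} {c : ℝ}
    (hc : 0 < c) (hv : Reg v c) (hfr : ∀ ε : ℝ, 0 < ε → ∃ᶠ N : ℕ in atTop,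
      ∑ n ∈ (Finset.Icc 1 N).filter (fun n : ℕ => s * (n : ℤ) ∉ S), v n ≤ ε * N) (n : ℕ) (hn : 1 ≤ n) :
    s * (n : ℤ) ∈ S := by
  by_contra hcon
  obtain ⟨R, hR⟩ : ∃ R : Set ℤ, R = Sᶜ := ⟨_, rfl⟩
  have hSc : Z.Invariant R := by rw [hR]; exact Z.Invariant.compl hS
  have h0 : 0 < s * (s * (n : ℤ)) := by rcases hs with rfl | rfl <;> omega
  obtain ⟨δ, hδ, hd⟩ := Z.dens_pos hs hSc (a := s * (n : ℤ)) (by rw [hR]; exact hcon) h0
  have h1 := main_seq (Z.AC_fam hs) hv (show 0 < c * δ / 4 by positivity)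
  have h2 := hfr (c * δ / 4) (by positivity)
  obtain ⟨N, g2, g1, g3, g4⟩ := (h2.and_eventually (h1.and (hd.and (eventually_ge_atTop 1)))).exists
  have g5 := g1 _ (Z.mem_fam s hSc)
  rw [Finset.sum_sub_distrib, Finset.sum_const, nsmul_eq_mul, Real.norm_eq_abs, abs_le] at g5
  have hN : (0 : ℝ) < N := by exact_mod_cast g4
  have g6 := mul_le_mul_of_nonneg_right g3 hc.le
  have g7 : 0 < c * δ * N := by positivity
  have e : (Finset.Icc 1 N).filter (fun n : ℕ => s * (n : ℤ) ∈ R) =
      (Finset.Icc 1 N).filter (fun n : ℕ => s * (n : ℤ) ∉ S) := by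
    ext m
    rw [Finset.mem_filter, Finset.mem_filter, hR]
    rfl
  have g8 : ∑ n ∈ (Finset.Icc 1 N).filter (fun n : ℕ => s * (n : ℤ) ∈ R), v n ≤ c * δ / 4 * N := by
    rw [e]; exact g2
  nlinarith [g5.1]

/-- The criterion for one sign. -/
theorem crit [Fintype A] [MeasurableSpace A] [MeasurableSingletonClass A] (μ : Measure (ℕ → A))
    [IsProbabilityMeasure μ] (hμ : Ergodic shift μ) {a : ℕ → A} (ha : Generic μ a) {c : A}
    (hc : μ {x | x 0 = c} ≠ 0) {s : ℤ} (hs : s = 1 ∨ s = -1) {S : Set ℤ} (hS : Invariant S) :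
    (∀ n : ℕ, 1 ≤ n → s * (n : ℤ) ∈ S) ↔ ∀ ε : ℝ, 0 < ε → ∃ᶠ N : ℕ in atTop,
      ({n : ℕ | 1 ≤ n ∧ n ≤ N ∧ a n = c ∧ s * (n : ℤ) ∉ S}.ncard : ℝ) ≤ ε * N := by
  classical
  constructor
  · intro hall ε hε
    apply Filter.Eventually.frequently
    filter_upwards with N
    have : {n : ℕ | 1 ≤ n ∧ n ≤ N ∧ a n = c ∧ s * (n : ℤ) ∉ S} = ∅ := by
      ext n
      simp only [Set.mem_ofPred_eq, Set.mem_empty_iff_false, iff_false]
      rintro ⟨h1, -, -, h2⟩
      exact h2 (hall n h1)
    rw [this, Set.ncard_empty]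
    push_cast
    positivity
  · intro hfr
    have h1 := Pool.Agent.U339.CE.Sym.reg_generic (A := A) hμ (a := a) ha (k := 1) (fun _ => c)
    have hcyl : cyl (fun _ : Fin 1 => c) = {x : ℕ → A | x 0 = c} := by
      ext x
      simp only [cyl, Set.mem_ofPred_eq]
      constructor
      · intro h; exact h 0
      · intro h i
        have : i = 0 := Subsingleton.elim _ _
        rw [this]; exact h
    have hpos : 0 < μ.real (Pool.Agent.U339.CE.Sym.cyl (fun _ : Fin 1 => c)) := by
      have h2 : Pool.Agent.U339.CE.Sym.cyl (fun _ : Fin 1 => c) = {x : ℕ → A | x 0 = c} := hcyl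
      rw [h2]
      exact ENNReal.toReal_pos hc (measure_ne_top _ _)
    refine crit_aux hs hS hpos h1 fun ε hε => (hfr ε hε).mono fun N hN => ?_
    refine le_trans (le_of_eq ?_) hN
    have h3 : {n : ℕ | 1 ≤ n ∧ n ≤ N ∧ a n = c ∧ s * (n : ℤ) ∉ S} =
        (((((Finset.Icc 1 N).filter (fun n : ℕ => s * (n : ℤ) ∉ S))).filter fun n => a n = c : Finset ℕ) :
          Set ℕ) := by
      ext n
      simp only [Set.mem_ofPred_eq, Finset.coe_filter, Finset.mem_filter, Finset.mem_Icc]
      tauto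
    rw [h3, Set.ncard_coe_finset, Finset.card_filter]
    push_cast
    apply Finset.sum_congr rfl
    intro n _
    have h4 : (∀ i : Fin 1, a (n + i) = c) ↔ a n = c := by
      constructor
      · intro h; exact h 0
      · intro h i
        have : i = 0 := Subsingleton.elim _ _
        rw [this]; exact h
    by_cases h : a n = c
    · rw [if_pos h, if_pos (h4.2 h)]
    · rw [if_neg h, if_neg (fun h' => h (h4.1 h'))]

theorem result :
    (∀ (A : Type u) [Fintype A] [MeasurableSpace A] [MeasurableSingletonClass A] (μ : Measure (ℕ → A))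
      [IsProbabilityMeasure μ], Ergodic shift μ → ∀ a : ℕ → A, Generic μ a →
        (∀ (k : ℕ) (w : Fin k → A) (ε : ℝ), 0 < ε → ∃ N₀ : ℕ, ∀ s : ℤ, (s = 1 ∨ s = -1) →
          ∀ S : Set ℤ, Invariant S → ∀ N ≥ N₀,
            |({n : ℕ | 1 ≤ n ∧ n ≤ N ∧ s * (n : ℤ) ∈ S ∧ ∀ i : Fin k, a (n + i) = w i}.ncard : ℝ) -
              μ.real (cyl w) * ({n : ℕ | 1 ≤ n ∧ n ≤ N ∧ s * (n : ℤ) ∈ S}.ncard : ℝ)| ≤ ε * N) ∧
        (∀ s : ℤ, (s = 1 ∨ s = -1) → ∀ S : Set ℤ, Invariant S → (∃ x ∈ S, 0 < s * x) →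
          Generic μ (fun i => a (idx s S i))) ∧
        ∀ c : A, μ {x | x 0 = c} ≠ 0 → ∀ s : ℤ, (s = 1 ∨ s = -1) → ∀ S : Set ℤ, Invariant S →
          ((∀ n : ℕ, 1 ≤ n → s * (n : ℤ) ∈ S) ↔ ∀ ε : ℝ, 0 < ε → ∃ᶠ N : ℕ in atTop,
            ({n : ℕ | 1 ≤ n ∧ n ≤ N ∧ a n = c ∧ s * (n : ℤ) ∉ S}.ncard : ℝ) ≤ ε * N)) ∧
    (∀ (b : ℕ) (a : ℕ → Fin b), Normal a →
      (∀ s : ℤ, (s = 1 ∨ s = -1) → ∀ S : Set ℤ, Invariant S → (∃ x ∈ S, 0 < s * x) →
        Normal (fun i => a (idx s S i))) ∧
      Normal (fun i => a (idx 1 (Basin 1) i)) ∧ Normal (fun i => a (idx (-1) (Basin (-1)) i)) ∧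
      Normal (fun i => a (idx (-1) (Basin (-5)) i)) ∧ Normal (fun i => a (idx (-1) (Basin (-17)) i)) ∧
      ∀ c : Fin b, (∀ x : ℤ, Reaches x) ↔ ∀ ε : ℝ, 0 < ε → ∀ s : ℤ, (s = 1 ∨ s = -1) →
        ∃ᶠ N : ℕ in atTop,
          ({n : ℕ | 1 ≤ n ∧ n ≤ N ∧ a n = c ∧ ¬ Reaches (s * (n : ℤ))}.ncard : ℝ) ≤ ε * N) := by
  classical
  have sel : ∀ (A : Type u) [Fintype A] [MeasurableSpace A] [MeasurableSingletonClass A]
      (μ : Measure (ℕ → A)) [IsProbabilityMeasure μ], Ergodic shift μ → ∀ a : ℕ → A, Generic μ a →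
      (∀ s : ℤ, (s = 1 ∨ s = -1) → ∀ S : Set ℤ, Invariant S → (∃ x ∈ S, 0 < s * x) →
          Generic μ (fun i => a (idx s S i))) := by
    intro A _ _ _ μ _ hμ a ha s hs S hS hne k w
    obtain ⟨x, hx, hx0⟩ := hne
    obtain ⟨δ, hδ, hd⟩ := Pool.Agent.U339.CE.Z.dens_pos hs hS hx hx0
    exact Pool.Agent.U339.CE.Sym.select (Pool.Agent.U339.CE.Z.AC_fam hs)
      (Pool.Agent.U339.CE.Z.mem_fam s hS) hδ hd (Pool.Agent.U339.CE.Sym.reg_generic hμ ha w)
  refine ⟨?_, ?_⟩
  · intro A _ _ _ μ _ hμ a ha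
    refine ⟨?_, sel A μ hμ a ha, fun c hc s hs S hS => crit μ hμ ha hc hs hS⟩
    intro k w ε hε
    have hreg := Pool.Agent.U339.CE.Sym.reg_generic hμ ha w
    have key : ∀ s : ℤ, (s = 1 ∨ s = -1) → ∃ N₀ : ℕ, ∀ S : Set ℤ, Invariant S → ∀ N ≥ N₀,
        |({n : ℕ | 1 ≤ n ∧ n ≤ N ∧ s * (n : ℤ) ∈ S ∧ ∀ i : Fin k, a (n + i) = w i}.ncard : ℝ) -
          μ.real (cyl w) * ({n : ℕ | 1 ≤ n ∧ n ≤ N ∧ s * (n : ℤ) ∈ S}.ncard : ℝ)| ≤ ε * N := by
      intro s hs
      obtain ⟨N₀, hN₀⟩ := eventually_atTop.1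
        (Pool.Agent.U339.CE.main_seq (Pool.Agent.U339.CE.Z.AC_fam hs) hreg hε)
      refine ⟨N₀, fun S hS N hN => ?_⟩
      have h1 := hN₀ N hN _ (Pool.Agent.U339.CE.Z.mem_fam s hS)
      rw [Finset.sum_sub_distrib, Finset.sum_const, nsmul_eq_mul, Real.norm_eq_abs] at h1
      have h2 : ({n : ℕ | 1 ≤ n ∧ n ≤ N ∧ s * (n : ℤ) ∈ S ∧ ∀ i : Fin k, a (n + i) = w i}.ncard : ℝ) =
          ∑ n ∈ (Finset.Icc 1 N).filter (fun n : ℕ => s * (n : ℤ) ∈ S),
            (if (∀ i : Fin k, a (n + i) = w i) then (1 : ℝ) else 0) := by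
        have h3 : {n : ℕ | 1 ≤ n ∧ n ≤ N ∧ s * (n : ℤ) ∈ S ∧ ∀ i : Fin k, a (n + i) = w i} =
            (((((Finset.Icc 1 N).filter (fun n : ℕ => s * (n : ℤ) ∈ S))).filter
              fun n => ∀ i : Fin k, a (n + i) = w i : Finset ℕ) : Set ℕ) := by
          ext n
          simp only [Set.mem_ofPred_eq, Finset.coe_filter, Finset.mem_filter, Finset.mem_Icc]
          tauto
        rw [h3, Set.ncard_coe_finset, Finset.card_filter]
        push_cast
        rfl
      have h4 : ({n : ℕ | 1 ≤ n ∧ n ≤ N ∧ s * (n : ℤ) ∈ S}.ncard : ℝ) =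
          (((Finset.Icc 1 N).filter (fun n : ℕ => s * (n : ℤ) ∈ S)).card : ℝ) := by
        rw [← Set.ncard_coe_finset]
        congr 2
        ext n
        simp only [Set.mem_ofPred_eq, Finset.coe_filter, Finset.mem_Icc, and_assoc]
      rw [h2, h4, mul_comm (μ.real (cyl w))]
      exact h1
    obtain ⟨N₁, hN₁⟩ := key 1 (Or.inl rfl)
    obtain ⟨N₂, hN₂⟩ := key (-1) (Or.inr rfl)
    refine ⟨max N₁ N₂, fun s hs S hS N hN => ?_⟩
    rcases hs with rfl | rfl
    · exact hN₁ S hS N ((le_max_left _ _).trans hN)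
    · exact hN₂ S hS N ((le_max_right _ _).trans hN)
  · intro b a ha
    have hb : b ≠ 0 := by
      intro h
      subst h
      exact (a 0).elim0
    have : NeZero b := ⟨hb⟩
    have herg : Ergodic (shift : (ℕ → Fin b) → (ℕ → Fin b)) (Measure.infinitePi fun _ : ℕ => unif b) :=
      Pool.Agent.U339.CE.Sym.bernoulli_ergodic (unif b)
    have ha' := (normal_iff a).1 ha
    have hsel : ∀ s : ℤ, (s = 1 ∨ s = -1) → ∀ S : Set ℤ, Invariant S → (∃ x ∈ S, 0 < s * x) →
        Normal (fun i => a (idx s S i)) := by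
      intro s hs S hS hne
      rw [normal_iff]
      obtain ⟨x, hx, hx0⟩ := hne
      obtain ⟨δ, hδ, hd⟩ := Pool.Agent.U339.CE.Z.dens_pos hs hS hx hx0
      intro k w
      exact Pool.Agent.U339.CE.Sym.select (Pool.Agent.U339.CE.Z.AC_fam hs)
        (Pool.Agent.U339.CE.Z.mem_fam s hS) hδ hd (Pool.Agent.U339.CE.Sym.reg_generic herg ha' w)
    refine ⟨hsel, ?_, ?_, ?_, ?_, ?_⟩
    · exact hsel 1 (Or.inl rfl) _ (basin_inv (p := 2) (by decide)) ⟨1, ⟨0, rfl⟩, by norm_num⟩
    · exact hsel (-1) (Or.inr rfl) _ (basin_inv (p := 1) (by decide)) ⟨-1, ⟨0, rfl⟩, by norm_num⟩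
    · exact hsel (-1) (Or.inr rfl) _ (basin_inv (p := 4) (by decide)) ⟨-5, ⟨0, rfl⟩, by norm_num⟩
    · exact hsel (-1) (Or.inr rfl) _ (basin_inv (p := 17) (by decide)) ⟨-17, ⟨0, rfl⟩, by norm_num⟩
    · intro c
      have hc : (Measure.infinitePi fun _ : ℕ => unif b) {x | x 0 = c} ≠ 0 := by
        have h1 : {x : ℕ → Fin b | x 0 = c} = cyl (fun _ : Fin 1 => c) := by
          ext x
          simp only [cyl, Set.mem_ofPred_eq]
          constructor
          · intro h i
            have : i = 0 := Subsingleton.elim _ _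
            rw [this]; exact h
          · intro h; exact h 0
        have h2 := bern_cyl b (fun _ : Fin 1 => c)
        rw [← h1] at h2
        intro h3
        unfold Measure.real at h2
        rw [h3] at h2
        simp at h2
        exact hb (Nat.cast_injective (R := ℝ) (by rw [Nat.cast_zero]; exact h2.symm))
      have hcr := fun (s : ℤ) (hs : s = 1 ∨ s = -1) => crit (S := {x | Reaches x}) _ herg ha' hc hs reaches_inv
      constructor
      · intro hall ε hε s hs
        exact (hcr s hs).1 (fun n _ => hall _) ε hε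
      · intro h x
        rcases lt_trichotomy x 0 with hx | hx | hx
        · have h1 := (hcr (-1) (Or.inr rfl)).2 (fun ε hε => h ε hε (-1) (Or.inr rfl)) x.natAbs (by omega)
          have e : (-1 : ℤ) * (x.natAbs : ℤ) = x := by omega
          rw [e] at h1
          exact h1
        · subst hx
          exact ⟨0, by decide⟩
        · have h1 := (hcr 1 (Or.inl rfl)).2 (fun ε hε => h ε hε 1 (Or.inl rfl)) x.natAbs (by omega)
          have e : (1 : ℤ) * (x.natAbs : ℤ) = x := by omega
          rw [e] at h1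
          exact h1

end Pool.Agent.Results.MP_d02c56_nt.SelectedDigits
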