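import Pool.Agent.U931.TS4

set_option autoImplicit false

/-! The law of the sum of the terms of a trajectory of the `3x+1` map. -/

namespace Pool.Agent.Results.MP_d02c56_nt.TrajectorySums

open Filter Topology

/-- the map `T`: `x/2` for even `x`, `(3x+1)/2` for odd `x` -/
def T (n : ℕ) : ℕ := if n % 2 = 0 then n / 2 else (3 * n + 1) / 2

/-- the positive elements of `S` have natural density `δ` -/
def HasDensity (S : Set ℕ) (δ : ℝ) : Prop :=
  Tendsto (fun N : ℕ => ({n : ℕ | 1 ≤ n ∧ n ≤ N ∧ n ∈ S}.ncard : ℝ) / N) atTop (𝓝 δ)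

/-- `f(m)/m` tends to `a` along the even `m` and to `b` along the odd `m` -/
def Slopes (f : ℕ → ℝ) (a b : ℝ) : Prop :=
  Tendsto (fun m : ℕ => f m / m - (if m % 2 = 0 then a else b)) atTop (𝓝 0)

/-- the least `k` with `T^k(n) ∈ R` (and `0` if there is none) -/
noncomputable def hit (R : Set ℕ) (n : ℕ) : ℕ := sInf {k | T^[k] n ∈ R}

/-- the sum of the `f(T^k(n))` over the `k` less than the time of the first visit to `R` -/
noncomputable def sumTo (f : ℕ → ℝ) (R : Set ℕ) (n : ℕ) : ℝ := ∑ k ∈ Finset.range (hit R n), f (T^[k] n)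

/-- the sum of a word `w` over `{0,1}`: the sum over the `k` with `w_k = 1` of the product over the
`i < k` of `1/2` (if `w_i = 0`) or `3/2` (if `w_i = 1`) -/
noncomputable def wordSum {K : ℕ} (w : Fin K → Fin 2) : ℝ :=
  ∑ k, (if w k = 0 then 0 else 1) * ∏ i, (if i < k then (if w i = 0 then (1 / 2 : ℝ) else 3 / 2) else 1)

/-- THE LAW OF THE TRAJECTORY SUMS. There is one continuous distribution function `G` on `[0,∞)`, the
limit of the distributions of the sums of the words of length `K`, with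
`G(y) = G(2y)/2 + G(2(y-1)/3)/2` and `1 - G(y) ~ (2 / log (27/16)) / y`, which governs all the sums
of linear growth along the trajectories: let `S` be any set of positive integers invariant under `T` and
its inverse (a basin of a cycle, the set of the bounded trajectories, ...) and `δ` its density, `R` a set
of density zero met by all trajectories starting in `S` (a cycle, the periodic points, ...), and let
`f(m)/m` tend to `a` along the even and to `b` along the odd `m`. If `a + b > 0`, then for every real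
`y` the `n` in `S` for which the sum of `f` over the trajectory of `n` before `R` is at most `y n` have
the density `δ G((y-2a)/(a+b))`; if `a + b = 0`, this sum is `(2a + o(1)) n` for almost all `n` in
`S`. The periodic points have density zero. -/
theorem result : ∃ G : ℝ → ℝ, Continuous G ∧ Monotone G ∧ (∀ y, y ≤ 0 → G y = 0) ∧
    Tendsto G atTop (𝓝 1) ∧
    (∀ y, G y = (G (2 * y) + G (2 * (y - 1) / 3)) / 2) ∧
    Tendsto (fun y => y * (1 - G y)) atTop (𝓝 (2 / Real.log (27 / 16))) ∧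
    (∀ y : ℝ, Tendsto (fun K : ℕ => ({w : Fin K → Fin 2 | wordSum w ≤ y}.ncard : ℝ) / 2 ^ K) atTop
      (𝓝 (G y))) ∧
    HasDensity {n | ∃ p, 1 ≤ p ∧ T^[p] n = n} 0 ∧
    ∀ S : Set ℕ, (∀ n, 1 ≤ n → (n ∈ S ↔ T n ∈ S)) → ∃ δ : ℝ, HasDensity S δ ∧
      (0 < δ ↔ ∃ n, 1 ≤ n ∧ n ∈ S) ∧ (δ = 1 ↔ ∀ n, 1 ≤ n → n ∈ S) ∧
      ∀ R : Set ℕ, HasDensity R 0 → (∀ n ∈ S, 1 ≤ n → ∃ k, T^[k] n ∈ R) →
      ∀ (f : ℕ → ℝ) (a b : ℝ), Slopes f a b →
        (0 < a + b → ∀ y : ℝ,
          HasDensity {n | n ∈ S ∧ sumTo f R n ≤ y * n} (δ * G ((y - 2 * a) / (a + b)))) ∧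
        (a + b = 0 → ∀ ε : ℝ, 0 < ε → HasDensity {n | n ∈ S ∧ ε * n < |sumTo f R n - 2 * a * n|} 0) := by
  have h0 : (0 : ℝ) ≤ 0 := le_rfl
  have h1 : (0 : ℝ) ≤ 1 := zero_le_one
  have hmono : Monotone Pool.Agent.U931.TS.G := fun x y h => by
    have := Pool.Agent.U931.PL.Hi_anti h0 h1 h
    unfold Pool.Agent.U931.TS.G
    linarith
  refine ⟨Pool.Agent.U931.TS.G, Pool.Agent.U931.TS.G_cont, hmono, ?_, ?_, ?_, ?_, ?_, ?_, ?_⟩
  · intro y hy
    have hneg : ∀ x : ℝ, x < 0 → Pool.Agent.U931.TS.G x = 0 := fun x hx => by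
      unfold Pool.Agent.U931.TS.G
      rw [Pool.Agent.U931.PL.Hi_neg h0 h1 hx]; ring
    have h2 : Tendsto Pool.Agent.U931.TS.G (𝓝[<] 0) (𝓝 (Pool.Agent.U931.TS.G 0)) :=
      (Pool.Agent.U931.TS.G_cont.tendsto 0).mono_left nhdsWithin_le_nhds
    have h3 : Pool.Agent.U931.TS.G 0 = 0 := by
      refine tendsto_nhds_unique h2 ((tendsto_const_nhds (x := (0 : ℝ))).congr' ?_)
      filter_upwards [self_mem_nhdsWithin] with x hx
      exact (hneg x hx).symm
    rcases hy.lt_or_eq with h | h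
    · exact hneg y h
    · rw [h, h3]
  · have h := (Pool.Agent.U931.PL.Hi_tendsto_zero h0 h1).const_sub 1
    rw [sub_zero] at h
    exact h
  · intro y
    unfold Pool.Agent.U931.TS.G
    rw [Pool.Agent.U931.PL.Hi_rec h0 h1 y, sub_zero]
    ring
  · have h := Pool.Agent.U931.PL.tail h0 h1 (by norm_num)
    have e : 2 * ((0 : ℝ) + 1) / Real.log (27 / 16) = 2 / Real.log (27 / 16) := by norm_num
    rw [e] at h
    refine h.congr fun y => ?_
    unfold Pool.Agent.U931.TS.G
    ring
  · intro y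
    have h := (Pool.Agent.U931.PL.Hk_tendsto h0 h1 y).const_sub 1
    refine h.congr fun K => ?_
    have h2 := Pool.Agent.U931.TS.word_count K y
    change ({w : Fin K → Fin 2 | wordSum w ≤ y}.ncard : ℝ) = _ at h2
    rw [h2]
    field_simp
  · exact Pool.Agent.U931.TS.per_zd
  · intro S hS
    obtain ⟨δ, _, _, hδ, hpos, hone⟩ := Pool.Agent.H499R2.ND.nat_density (P := fun n => n ∈ S) hS
    refine ⟨δ, hδ, hpos, hone, fun R hR hPR f a b hf => ⟨fun hab y => ?_, fun hab ε hε => ?_⟩⟩
    · have hP : ∀ n : ℕ, n ∈ S ↔ Pool.Agent.H499R2.ND.Tn n ∈ S := by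
        intro n
        rcases Nat.eq_zero_or_pos n with h | h
        · rw [h]; rfl
        · exact hS n h
      exact Pool.Agent.U931.TS.gen_law (P := fun n => n ∈ S) (R := fun n => n ∈ R) hab hf hP hδ hR
        (fun n hn h => hPR n h hn) y
    · exact Pool.Agent.U931.TS.deg_law (P := fun n => n ∈ S) (R := fun n => n ∈ R) hab hf hR
        (fun n hn h => hPR n h hn) hε

end Pool.Agent.Results.MP_d02c56_nt.TrajectorySums
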